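import Pool.Agent.Y518.CC.PubThm

/-!
# Finite colourings of Borel graphs do not give transversals of the relation of eventual equality

For every Borel graph on a Polish space with finite chromatic number k there is a countable
transitive model of ZF + DC that contains a k-colouring of the graph but no transversal of the
relation E_0; moreover the model can be chosen to contain any given real. No assumption on the
colouring number is needed. The other definitions are in `Pool/Agent/Y518/CC/Pub.lean`.
-/

set_option autoImplicit false

namespace Pool.Agent.Results.MP_7d109d_lc.NoE0Transversal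

open Pool.Agent.Y518.CC.Pub

/-- The sequence of bits `a` as a function from the natural numbers to `{0, 1}`. -/
def bin (a : ℕ → Bool) (n : ℕ) : ℕ := if a n then 1 else 0

/-- In the transitive class `M`, the set `T` is a transversal of the relation `E₀` on the Cantor
space (`a` and `b` are equivalent if `a n = b n` for all but finitely many `n`). The elements of
the Cantor space of `M` are the sequences of bits `a` that are in `M`. All elements of `T` are
sequences of bits, and for every sequence `a` in `M` there is exactly one sequence `b` in `T` that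
is equivalent to `a`. -/
def IsTransversal (M : Set ZFSet.{0}) (T : ZFSet.{0}) : Prop :=
  (∀ t ∈ T, ∃ a : ℕ → Bool, t = code (bin a)) ∧
  ∀ a : ℕ → Bool, code (bin a) ∈ M →
    ∃! b : ℕ → Bool, code (bin b) ∈ T ∧ ∃ m, ∀ n ≥ m, b n = a n

theorem result {X : Type} [TopologicalSpace X] [PolishSpace X] [MeasurableSpace X] [BorelSpace X]
    (Γ : SimpleGraph X) (borel : MeasurableSet {p : X × X | Γ.Adj p.1 p.2})
    (k : ℕ) (pos : 0 < k) (colorable : Γ.Colorable k)
    (e : X → ℕ → ℕ) (he : Measurable e) (inj : Function.Injective e) (z : ℕ → ℕ) :
    ∃ M : Set ZFSet.{0}, M.Countable ∧ IsZF M ∧ DC M ∧ code z ∈ M ∧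
      (∃ c ∈ M, IsColouring M Γ e k c) ∧ ¬ ∃ T ∈ M, IsTransversal M T := by
  obtain ⟨M, h1, h2, h3, h4, h5, -, h6⟩ := model Γ borel pos colorable e he inj z
  refine ⟨M, h1, h2, h3, h4, h5, ?_⟩
  have h7 : bin = Pool.Agent.Y518.CC.bin := rfl
  simp only [IsTransversal, Pool.Agent.Y518.CC.IsE0Tr, code_eq, h7] at h6 ⊢
  exact h6

end Pool.Agent.Results.MP_7d109d_lc.NoE0Transversal
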